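import Pool.Agent.H66.IP.TB

/-!
# Board IPF, row BFG: a game does not see a block of larger scale
-/

set_option autoImplicit false

namespace Pool.Agent.H79.IP

open Finset Pool.Agent.H6.NB Pool.Agent.H70.EH Pool.Agent.H78.XQ Pool.Agent.H66.IP

/-- the numbers -/
theorem bfg_num {r l n : ℕ} (hr : 20 ≤ r) (hl : 16 * r ^ 3 ≤ l) (hn : n + 1 ≤ r) :
    3 * n ^ 2 + 2 * n + 4 + 3 * r ≤ l / 2 := by
  have h1 : 8 * r ^ 3 ≤ l / 2 := by omega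
  have h2 : n ^ 2 ≤ r ^ 2 := Nat.pow_le_pow_left (by omega) 2
  have h3 : 20 * r ^ 2 ≤ r ^ 3 := by
    rw [pow_succ' r 2]
    exact Nat.mul_le_mul_right _ hr
  have h4 : 20 * r ≤ r ^ 2 := by
    rw [sq]
    exact Nat.mul_le_mul_right _ hr
  omega

/-- BFG -/
theorem pf_BFG (hBLG : T_BLG) : T_BFG := by
  intro r l q R N hS n b F hn h1 h2
  have h3 := hBLG r l q R N hS b (2 ^ n ^ 2 + 2 ^ n) (2 ^ n ^ 2 + 2 ^ n) (2 ^ n) F
    (Nat.le_add_right_of_le Nat.one_le_two_pow) Nat.one_le_two_pow h1 h2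
  refine h3.trans ?_
  have hnn : n ≤ n ^ 2 := by
    rcases Nat.eq_zero_or_pos n with h | h
    · omega
    · exact Nat.le_self_pow (by norm_num) n
  have hk : ((2 ^ n ^ 2 + 2 ^ n : ℕ) : ℝ) ≤ 2 ^ (n ^ 2 + 1) := by
    have : 2 ^ n ^ 2 + 2 ^ n ≤ 2 ^ (n ^ 2 + 1) := by
      have h' : 2 ^ n ≤ 2 ^ n ^ 2 := Nat.pow_le_pow_right (by norm_num) hnn
      refine (Nat.add_le_add_left h' _).trans (le_of_eq ?_)
      rw [pow_succ 2 (n ^ 2), mul_two]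
    exact_mod_cast this
  have hd : ((2 ^ n ^ 2 + 2 ^ n : ℕ) : ℝ) + 1 ≤ 2 ^ (n ^ 2 + 2) := by
    have h5 : (1 : ℝ) ≤ 2 ^ (n ^ 2 + 1) := one_le_pow₀ (by norm_num)
    have h6 : (2 : ℝ) ^ (n ^ 2 + 2) = 2 * 2 ^ (n ^ 2 + 1) := by ring
    rw [h6]
    linarith
  have hw : ((2 ^ n : ℕ) : ℝ) = 2 ^ n := by push_cast; rfl
  have hnum := bfg_num hS.r_ge hS.l_ge hn
  have h8 : ((1 : ℝ) / 8) ^ r = 1 / 2 ^ (3 * r) := by
    rw [pow_mul, one_div_pow]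
    norm_num
  rw [h8, div_le_div_iff₀ (by positivity) (by positivity), one_mul, hw]
  have h9 : (((2 ^ n ^ 2 + 2 ^ n : ℕ) : ℝ)) ^ 2 * (((2 ^ n ^ 2 + 2 ^ n : ℕ) : ℝ) + 1) *
      (2 ^ n) ^ 2 ≤ (2 ^ (n ^ 2 + 1)) ^ 2 * 2 ^ (n ^ 2 + 2) * (2 ^ n) ^ 2 :=
    mul_le_mul_of_nonneg_right (mul_le_mul (pow_le_pow_left₀ (by positivity) hk 2) hd
      (by positivity) (by positivity)) (by positivity)
  refine (mul_le_mul_of_nonneg_right h9 (by positivity)).trans ?_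
  rw [← pow_mul, ← pow_mul, ← pow_add, ← pow_add, ← pow_add]
  exact pow_le_pow_right₀ (by norm_num) (by omega)

end Pool.Agent.H79.IP
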